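import Pool.Agent.Helper24.HW.Stmts

/-! Module TW of the project HW: twisting an edge. -/

set_option autoImplicit false

namespace Pool.Agent.Helper53.HW

open Equiv Equiv.Perm Pool.Agent.Helper24.HW Pool.Agent.Helper24.HWPub
open Pool.Agent.Helper98.Gn

/-- orbits of a subgroup generated by a set are contained in the orbits of a subgroup that moves
like the generators -/
theorem tw_orb {Φ : Type} {S : Set (Perm Φ)} {H : Subgroup (Perm Φ)}
    (h : ∀ s ∈ S, ∀ f : Φ, s f ∈ MulAction.orbit H f) {f k : Φ}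
    (hk : k ∈ MulAction.orbit (Subgroup.closure S) f) : k ∈ MulAction.orbit H f := by
  obtain ⟨⟨γ, hγ⟩, rfl⟩ := hk
  have key : ∀ γ ∈ Subgroup.closure S, ∀ f : Φ, γ f ∈ MulAction.orbit H f := by
    intro γ hγ
    induction hγ using Subgroup.closure_induction with
    | mem x hx => exact h x hx
    | one => intro f; exact MulAction.mem_orbit_self f
    | mul x y _ _ hx hy =>
      intro f
      have h1 := hx (y f)
      have h2 := hy f
      exact MulAction.orbit_eq_iff.2 h2 ▸ h1
    | inv x _ hx =>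
      intro f
      have h1 := hx (x⁻¹ f)
      have h3 : x (x⁻¹ f) = f := by
        rw [← Perm.mul_apply, mul_inv_cancel, Perm.one_apply]
      rw [h3] at h1
      exact MulAction.mem_orbit_symm.1 h1
  exact key γ hγ f

theorem tw_gen {Φ : Type} {S : Set (Perm Φ)} {s : Perm Φ} (hs : s ∈ S) (f : Φ) :
    s f ∈ MulAction.orbit (Subgroup.closure S) f :=
  ⟨⟨s, Subgroup.subset_closure hs⟩, rfl⟩

theorem st_TW (hD : ST_DIH) : ST_TW := by
  intro Φ _ _ a g hM hg
  have inv0 := hM.inv 0
  have inv1 := hM.inv 1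
  have inv2 := hM.inv 2
  have fix0 := hM.fix 0
  have fix1 := hM.fix 1
  have fix2 := hM.fix 2
  have comm := hM.comm
  have ne02 := hM.ne02
  have d1 : g ≠ a 0 g := fun h => fix0 g h.symm
  have d2 : g ≠ a 2 g := fun h => fix2 g h.symm
  have d3 : g ≠ a 0 (a 2 g) := fun h => ne02 g h.symm
  have d4 : a 0 g ≠ a 2 g := fun h => by
    apply ne02 g
    rw [← h, inv0]
  have d5 : a 0 g ≠ a 0 (a 2 g) := fun h => d2 ((a 0).injective h)
  have d6 : a 2 g ≠ a 0 (a 2 g) := fun h => fix0 _ h.symm
  have t0 : tw a g 0 = a 0 := rfl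
  have t1 : tw a g 1 = a 1 := rfl
  have t2 : tw a g 2 = a 2 * swap g (a 0 g) * swap (a 2 g) (a 0 (a 2 g)) := rfl
  have form : ∀ f, tw a g 2 f = if f = g ∨ f = a 0 g ∨ f = a 2 g ∨ f = a 0 (a 2 g)
      then a 2 (a 0 f) else a 2 f := by
    intro f
    rw [t2]
    by_cases h1 : f = g
    · subst h1
      rw [if_pos (Or.inl rfl), Perm.mul_apply, swap_apply_of_ne_of_ne d2 d3, Perm.mul_apply,
        swap_apply_left]
    by_cases h2 : f = a 0 g
    · rw [if_pos (Or.inr (Or.inl h2)), h2, Perm.mul_apply, swap_apply_of_ne_of_ne d4 d5,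
        Perm.mul_apply, swap_apply_right, inv0]
    by_cases h3 : f = a 2 g
    · rw [if_pos (Or.inr (Or.inr (Or.inl h3))), h3, Perm.mul_apply, swap_apply_left,
        Perm.mul_apply, swap_apply_of_ne_of_ne d3.symm d5.symm]
    by_cases h4 : f = a 0 (a 2 g)
    · rw [if_pos (Or.inr (Or.inr (Or.inr h4))), h4, Perm.mul_apply, swap_apply_right,
        Perm.mul_apply, swap_apply_of_ne_of_ne d2.symm d4.symm, inv0]
    · rw [if_neg (by tauto), Perm.mul_apply, swap_apply_of_ne_of_ne h3 h4, Perm.mul_apply,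
        swap_apply_of_ne_of_ne h1 h2]
  -- the edge
  set E : Set Φ := {f | f = g ∨ f = a 0 g ∨ f = a 2 g ∨ f = a 0 (a 2 g)} with hE
  have formE : ∀ f ∈ E, tw a g 2 f = a 2 (a 0 f) := fun f hf => by
    have hf' : f = g ∨ f = a 0 g ∨ f = a 2 g ∨ f = a 0 (a 2 g) := hf
    rw [form, if_pos hf']
  have formN : ∀ f, f ∉ E → tw a g 2 f = a 2 f := fun f hf => by
    have hf' : ¬ (f = g ∨ f = a 0 g ∨ f = a 2 g ∨ f = a 0 (a 2 g)) := hf
    rw [form, if_neg hf']
  have E0 : ∀ f ∈ E, a 0 f ∈ E := by
    rintro f (h | h | h | h)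
    · rw [h]; exact Or.inr (Or.inl rfl)
    · rw [h, inv0]; exact Or.inl rfl
    · rw [h]; exact Or.inr (Or.inr (Or.inr rfl))
    · rw [h, inv0]; exact Or.inr (Or.inr (Or.inl rfl))
  have E2 : ∀ f ∈ E, a 2 f ∈ E := by
    rintro f (h | h | h | h)
    · rw [h]; exact Or.inr (Or.inr (Or.inl rfl))
    · rw [h, ← comm]; exact Or.inr (Or.inr (Or.inr rfl))
    · rw [h, inv2]; exact Or.inl rfl
    · rw [h, ← comm, inv2]; exact Or.inr (Or.inl rfl)
  have E0' : ∀ f, f ∉ E → a 0 f ∉ E := fun f hf h => hf (by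
    have := E0 _ h
    rwa [inv0] at this)
  have E2' : ∀ f, f ∉ E → a 2 f ∉ E := fun f hf h => hf (by
    have := E2 _ h
    rwa [inv2] at this)
  have hinv2 : ∀ f, tw a g 2 (tw a g 2 f) = f := by
    intro f
    by_cases hf : f ∈ E
    · rw [formE f hf, formE _ (E2 _ (E0 _ hf)), comm, inv2, inv0]
    · rw [formN f hf, formN _ (E2' _ hf), inv2]
  have hfix2 : ∀ f, tw a g 2 f ≠ f := by
    intro f
    by_cases hf : f ∈ E
    · rw [formE f hf, ← comm]; exact ne02 f
    · rw [formN f hf]; exact fix2 f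
  have hback : ∀ f, a 2 f = tw a g 2 f ∨ a 2 f = tw a g 2 (a 0 f) := by
    intro f
    by_cases hf : f ∈ E
    · right; rw [formE _ (E0 _ hf), inv0]
    · left; rw [formN f hf]
  have hforw : ∀ f, tw a g 2 f = a 2 f ∨ tw a g 2 f = a 2 (a 0 f) := by
    intro f
    by_cases hf : f ∈ E
    · right; exact formE f hf
    · left; exact formN f hf
  have hI : IsMap (tw a g) := by
    refine ⟨?_, ?_, ?_, ?_, hM.nonempty, ?_⟩
    · intro i f
      fin_cases i
      · exact inv0 f
      · exact inv1 f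
      · exact hinv2 f
    · intro i f
      fin_cases i
      · exact fix0 f
      · exact fix1 f
      · exact hfix2 f
    · intro f
      rw [t0]
      by_cases hf : f ∈ E
      · rw [formE f hf, formE _ (E0 _ hf), comm]
      · rw [formN f hf, formN _ (E0' _ hf), comm]
    · intro f
      rw [t0]
      by_cases hf : f ∈ E
      · rw [formE f hf, comm, inv0]; exact fix2 f
      · rw [formN f hf]; exact ne02 f
    · intro f k
      refine tw_orb (S := Set.range a) ?_ (hM.conn f k)
      rintro s ⟨i, rfl⟩ f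
      have k0 : tw a g 0 ∈ Set.range (tw a g) := ⟨0, rfl⟩
      have k1 : tw a g 1 ∈ Set.range (tw a g) := ⟨1, rfl⟩
      have k2 : tw a g 2 ∈ Set.range (tw a g) := ⟨2, rfl⟩
      fin_cases i
      · exact tw_gen k0 f
      · exact tw_gen k1 f
      · show a 2 f ∈ _
        rcases hback f with h | h
        · rw [h]
          exact tw_gen k2 f
        · rw [h]
          have h1 := tw_gen k2 (a 0 f)
          have h2 := tw_gen k0 f
          rw [t0] at h2
          exact MulAction.orbit_eq_iff.2 h2 ▸ h1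
  refine ⟨hI, ?_, rfl, rfl, form⟩
  -- edges
  have hn02 : num (tw a g 0) (tw a g 2) = num (a 0) (a 2) := by
    unfold num MulAction.orbitRel.Quotient
    have hs : MulAction.orbitRel (Subgroup.closure {tw a g 0, tw a g 2}) Φ
        = MulAction.orbitRel (Subgroup.closure {a 0, a 2}) Φ := by
      ext x y
      rw [MulAction.orbitRel_apply, MulAction.orbitRel_apply]
      constructor
      · refine tw_orb ?_
        have k0 : a 0 ∈ ({a 0, a 2} : Set (Perm Φ)) := Or.inl rfl
        have k2 : a 2 ∈ ({a 0, a 2} : Set (Perm Φ)) := Or.inr rfl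
        rintro s (rfl | rfl) f
        · exact tw_gen k0 f
        · rcases hforw f with h | h
          · rw [h]; exact tw_gen k2 f
          · rw [h]
            have h1 := tw_gen k2 (a 0 f)
            have h2 := tw_gen k0 f
            exact MulAction.orbit_eq_iff.2 h2 ▸ h1
      · refine tw_orb ?_
        have k0 : a 0 ∈ ({tw a g 0, tw a g 2} : Set (Perm Φ)) := Or.inl rfl
        have k2 : tw a g 2 ∈ ({tw a g 0, tw a g 2} : Set (Perm Φ)) := Or.inr rfl
        rintro s (rfl | rfl) f
        · exact tw_gen k0 f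
        · rcases hback f with h | h
          · rw [h]; exact tw_gen k2 f
          · rw [h]
            have h1 := tw_gen k2 (a 0 f)
            have h2 := tw_gen k0 f
            exact MulAction.orbit_eq_iff.2 h2 ▸ h1
    rw [hs]
  -- vertices
  have hn12 : num (tw a g 1) (tw a g 2) + 1 = num (a 1) (a 2) := by
    have e1 := (hD Φ (a 1) (a 2) inv1 inv2 fix1 fix2).1
    have e2 := (hD Φ (tw a g 1) (tw a g 2) inv1 hinv2 fix1 hfix2).1
    set w := a 1 * a 2 with hw
    have hww : tw a g 1 * tw a g 2 = w * swap g (a 0 g) * swap (a 2 g) (a 0 (a 2 g)) := by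
      rw [t1, t2, hw]
      simp only [mul_assoc]
    have wg : w g = g := by
      rw [hw, Perm.mul_apply, ← hg, inv1]
    have wb : w (a 2 g) = a 2 g := by
      rw [hw, Perm.mul_apply, inv2, hg]
    have fg : ∀ x y, w x = x → SameCycle w x y → x = y := by
      intro x y hx hxy
      obtain ⟨n, hn⟩ := hxy
      have : (w ^ n) x = x := by
        have : Function.IsFixedPt w x := hx
        exact (this.perm_zpow n)
      rw [this] at hn
      exact hn
    have m1 : ¬ SameCycle w g (a 0 g) := fun h => d1 (fg _ _ wg h)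
    have m2 : ¬ SameCycle (w * swap g (a 0 g)) (a 2 g) (a 0 (a 2 g)) := by
      rw [sc_merge m1]
      rintro (h | ⟨h | h, -⟩)
      · exact d6 (fg _ _ wb h)
      · exact d2 (fg _ _ wb h).symm
      · exact d4 (fg _ _ wb h).symm
    have c1 := cyc_merge m1
    have c2 := cyc_merge m2
    rw [hww] at e2
    omega
  unfold euler
  rw [hn02, t0, t1, ← hn12, t1]
  push_cast
  ring

end Pool.Agent.Helper53.HW
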